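import Mathlib
import Pool.Agent.H7.ApolarD

/-!
# MP_1c5791_ag: for odd `n` there are arbitrarily large generic arrangements in `P^n` whose apolar
ideal has initial degree exactly `n + 1`

The arrangement is `ℓ_j = x_0 + ζ^j x_1 + ... + ζ^(j n) x_n`, `ζ` a primitive `d`-th root of unity
(so the dual points are `d` points on the rational normal curve). With `n = 2 k - 1` the product
`det (y_(i+j)) * det (y_(i+j+1))`, `0 ≤ i, j < k`, of two Hankel determinants kills
`F = ∏ ℓ_j`: in `∏_j ℓ_j(γ)`, `ℓ_j(γ) = ∑ x_a (ζ^j γ)^a`, the second determinant kills the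
coefficients of `γ^j` for `j < d k` and the first one those with `j ≥ d k`.
-/

namespace Pool.Agent.Results.MP_1c5791_ag.OddDimensions

open MvPolynomial Finset Pool.Agent.H7.Apolar

/-- A generic arrangement of `d` hyperplanes in `P^n`: linear forms, any `min d (n + 1)` of which
are linearly independent. -/
def IsGenericArrangement (n d : ℕ) (ℓ : Fin d → Poly n) : Prop :=
  (∀ i, (ℓ i).IsHomogeneous 1) ∧
    ∀ s : Finset (Fin d), s.card = min d (n + 1) → LinearIndependent ℂ (fun i : s => ℓ i)

/-- The apolar ideal of `F`: all polynomials that kill `F` when acting by differentiation. -/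
noncomputable def apolar (n : ℕ) (F : Poly n) : Ideal (Poly n) where
  carrier := {θ | act n θ F = 0}
  add_mem' := by
    intro a b ha hb
    change act n (a + b) F = 0
    rw [map_add, LinearMap.add_apply, show act n a F = 0 from ha, show act n b F = 0 from hb,
      add_zero]
  zero_mem' := by
    change act n 0 F = 0
    rw [map_zero, LinearMap.zero_apply]
  smul_mem' := by
    intro c a ha
    change act n (c * a) F = 0
    rw [act_mul, Module.End.mul_apply, show act n a F = 0 from ha, map_zero]

/-- The ideal `I` has initial degree `k`: it contains a nonzero form of degree `k` and no nonzero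
form of smaller degree. -/
def IsInitialDegree {n : ℕ} (I : Ideal (Poly n)) (k : ℕ) : Prop :=
  (∃ θ ∈ I, θ ≠ 0 ∧ θ.IsHomogeneous k) ∧ ∀ j < k, ∀ θ ∈ I, θ.IsHomogeneous j → θ = 0

theorem lin_homog (n : ℕ) (t : ℂ) : (lin n t).IsHomogeneous 1 := by
  unfold lin
  refine MvPolynomial.IsHomogeneous.sum _ _ _ fun a _ => ?_
  simpa using (MvPolynomial.isHomogeneous_C _ (t ^ (a : ℕ))).mul
    (MvPolynomial.isHomogeneous_X ℂ a)

theorem lin_indep {n d : ℕ} {t : Fin d → ℂ} (ht : Function.Injective t) (s : Finset (Fin d))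
    (hs : s.card = n + 1) : LinearIndependent ℂ (fun i : s => lin n (t i)) := by
  classical
  rw [Fintype.linearIndependent_iff]
  intro g hg i₀
  set Q : Polynomial ℂ := ∏ i ∈ s.erase i₀, (Polynomial.X - Polynomial.C (t i)) with hQ
  have hQd : Q.natDegree < n + 1 := by
    rw [hQ, Polynomial.natDegree_finsetProd_X_sub_C_eq_card, Finset.card_erase_of_mem i₀.2]
    omega
  have h1 := congrArg (eval (fun a : Fin (n + 1) => Q.coeff a)) hg
  rw [map_zero, map_sum, Finset.sum_eq_single i₀] at h1
  · rw [MvPolynomial.smul_eval, eval_lin Q hQd] at h1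
    rcases mul_eq_zero.1 h1 with h2 | h2
    · exact h2
    · exfalso
      rw [hQ, Polynomial.eval_prod] at h2
      obtain ⟨i, hi, h3⟩ := Finset.prod_eq_zero_iff.1 h2
      rw [Polynomial.eval_sub, Polynomial.eval_X, Polynomial.eval_C, sub_eq_zero] at h3
      exact (Finset.mem_erase.1 hi).1 (ht h3).symm
  · intro i _ hi
    rw [MvPolynomial.smul_eval, eval_lin Q hQd, hQ, Polynomial.eval_prod,
      Finset.prod_eq_zero (i := (i : Fin d)), mul_zero]
    · exact Finset.mem_erase.2 ⟨fun h => hi (Subtype.ext h), i.2⟩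
    · simp
  · intro h; exact absurd (Finset.mem_univ _) h

/-- For every odd `n` and every `d ≥ 2 n` there is a generic arrangement of `d` hyperplanes in
`P^n` whose apolar ideal has initial degree exactly `n + 1`. -/
theorem result (n d : ℕ) (hn : Odd n) (hd : 2 * n ≤ d) :
    ∃ ℓ : Fin d → Poly n, IsGenericArrangement n d ℓ ∧
      IsInitialDegree (apolar n (∏ i, ℓ i)) (n + 1) := by
  classical
  obtain ⟨m, hm⟩ := hn
  have hd0 : 0 < d := by omega
  have : NeZero d := ⟨hd0.ne'⟩
  set ω : ℂ := Complex.exp (2 * Real.pi * Complex.I / d) with hω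
  have hprim : IsPrimitiveRoot ω d := Complex.isPrimitiveRoot_exp d hd0.ne'
  set t : Fin d → ℂ := fun s => ω ^ (s : ℕ) with ht
  have hinj : Function.Injective t := by
    intro a b hab
    exact Fin.ext (hprim.pow_inj a.2 b.2 hab)
  have h0 : ∀ s, t s ≠ 0 := fun s => pow_ne_zero _ (hprim.ne_zero hd0.ne')
  have hrot : ∀ s, t (Equiv.addRight (1 : Fin d) s) = ω * t s := by
    intro s
    have h1 : ∀ a : ℕ, ω ^ (a % d) = ω ^ a := by
      intro a
      conv_rhs => rw [← Nat.mod_add_div a d, pow_add, pow_mul, hprim.pow_eq_one, one_pow, mul_one]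
    change ω ^ (((s + 1 : Fin d)) : ℕ) = ω * ω ^ (s : ℕ)
    rw [Fin.val_add, h1, pow_add, mul_comm]
    congr 1
    rw [Fin.val_one', h1, pow_one]
  refine ⟨fun i => lin n (t i), ⟨fun i => lin_homog n (t i), fun s hs => ?_⟩, ?_, ?_⟩
  · exact lin_indep hinj s (by rw [hs]; omega)
  · refine ⟨hank (m + 1) 0 (by omega) * hank (m + 1) 1 (by omega), ?_, ?_, ?_⟩
    · exact kill hd0 (Fintype.card_fin d) hprim (Equiv.addRight 1) h0 hrot (m + 1) (by omega)
    · exact mul_ne_zero (hank_ne_zero _ _ _ (by omega)) (hank_ne_zero _ _ _ (by omega))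
    · have := (hank_homog (n := n) (m + 1) 0 (by omega)).mul
        (hank_homog (n := n) (m + 1) 1 (by omega))
      have e : m + 1 + (m + 1) = n + 1 := by omega
      rwa [e] at this
  · intro j hj θ hθ hhom
    refine lower hinj j ∅ Finset.univ (Finset.disjoint_empty_left _) ?_ ?_ θ hhom ?_
    · rw [Finset.card_empty]; omega
    · rw [Finset.card_univ, Fintype.card_fin]; omega
    · intro p _
      rw [show act n θ (∏ s, lin n (t s)) = 0 from hθ, map_zero]

end Pool.Agent.Results.MP_1c5791_ag.OddDimensions
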